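import Mathlib
import Pool.Agent.Helper71.Polyomino
import Pool.Agent.Helper71.Join
import Pool.Agent.Helper71.LinRec

/-!
The generating function of fixed polyominoes is not rational.
-/

namespace Pool.Agent.Results.MP_66fa61_co.NotRational

open Pool.Agent.Helper71.Polyomino Pool.Agent.Helper71.LinRec
open Polynomial Filter

/-- The generating function `T(z) = ∑_{n ≥ 1} t(n) z^n` of fixed polyominoes. -/
noncomputable def T : PowerSeries ℚ := PowerSeries.mk (fun n => if n = 0 then 0 else (t n : ℚ))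

/-- A power series is rational if it is a quotient of two polynomials, the denominator being
nonzero. -/
def IsRationalSeries (F : PowerSeries ℚ) : Prop :=
  ∃ P Q : ℚ[X], Q ≠ 0 ∧ (Q : PowerSeries ℚ) * F = (P : PowerSeries ℚ)

lemma one_le_t_one : 1 ≤ t 1 := by
  classical
  rw [t_eq]
  apply Finset.card_pos.mpr
  refine ⟨{0}, ?_⟩
  rw [mem_Nf]
  refine ⟨by simp, conn_singleton 0, by simp, ?_⟩
  intro q hq
  rw [Finset.mem_singleton] at hq
  subst hq
  right; simp

lemma t_pos_step {n : ℕ} (hn : 1 ≤ n) (h : 1 ≤ t n) : 1 ≤ t (2 * n + 1) := by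
  have h1 := sqrt_mul_sq_le n
  by_contra hcon
  have h0 : t (2 * n + 1) = 0 := by omega
  rw [h0] at h1
  have h2 : 0 < Real.sqrt n := Real.sqrt_pos.mpr (by exact_mod_cast hn)
  have h3 : (0 : ℝ) < t n := by exact_mod_cast h
  have h4 : 0 < Real.sqrt n * (t n : ℝ) ^ 2 := by positivity
  norm_num at h1
  linarith

lemma exists_t_pos (N : ℕ) : ∃ n ≥ N, 1 ≤ n ∧ 1 ≤ t n := by
  induction N with
  | zero => exact ⟨1, by omega, le_refl _, one_le_t_one⟩
  | succ N ih =>
    obtain ⟨n, hn, h1, h2⟩ := ih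
    exact ⟨2 * n + 1, by omega, by omega, t_pos_step h1 h2⟩

lemma sq_le {n : ℕ} (hn : 4 ≤ n) : (t n : ℝ) ^ 2 ≤ t (2 * n + 1) := by
  have h1 := sqrt_mul_sq_le n
  have h2 : (2 : ℝ) ≤ Real.sqrt n := by
    apply Real.le_sqrt_of_sq_le
    have : (4 : ℝ) ≤ n := by exact_mod_cast hn
    linarith
  nlinarith [sq_nonneg (t n : ℝ)]

lemma pow_le {n : ℕ} (hn : 4 ≤ n) (j : ℕ) :
    (t n : ℝ) ^ (2 ^ j) ≤ t (2 ^ j * (n + 1) - 1) := by
  induction j with
  | zero => simp
  | succ j ih =>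
    have h0 : 1 ≤ 2 ^ j := Nat.one_le_two_pow
    have h1 : n + 1 ≤ 2 ^ j * (n + 1) := Nat.le_mul_of_pos_left _ h0
    have h2 : 4 ≤ 2 ^ j * (n + 1) - 1 := by omega
    have h3 := sq_le h2
    have h4 : 2 * (2 ^ j * (n + 1) - 1) + 1 = 2 ^ (j + 1) * (n + 1) - 1 := by
      rw [pow_succ, mul_comm (2 ^ j) 2, mul_assoc]; omega
    rw [h4] at h3
    refine le_trans ?_ h3
    rw [pow_succ, pow_mul]
    exact pow_le_pow_left₀ (by positivity) ih 2

/-- The sequence `t(n)`, with value `0` at `n = 0`, as a complex sequence. -/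
noncomputable def u : ℕ → ℂ := fun n => if n = 0 then 0 else (t n : ℂ)

lemma norm_u {n : ℕ} (hn : n ≠ 0) : ‖u n‖ = t n := by
  unfold u
  rw [if_neg hn, Complex.norm_natCast]

lemma u_not_evZero : ¬ EvZero u := by
  rintro ⟨N, hN⟩
  obtain ⟨n, hn, h1, h2⟩ := exists_t_pos N
  have h3 := hN n hn
  have h4 := norm_u (n := n) (by omega)
  rw [h3, norm_zero] at h4
  have : (1 : ℝ) ≤ t n := by exact_mod_cast h2
  linarith

/-- Upper bound by supermultiplicativity. -/
lemma t_le {β : ℝ} (hβ : 0 < β) (h : Bdd β u) {n : ℕ} (hn : 4 ≤ n) :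
    (t n : ℝ) ≤ β ^ (n + 1) := by
  obtain ⟨C, hC⟩ := h
  by_contra hcon
  push Not at hcon
  have hb : 0 < β ^ (n + 1) := by positivity
  have hx : 1 < (t n : ℝ) / β ^ (n + 1) := by rwa [one_lt_div hb]
  have hlim : Tendsto (fun k : ℕ => ((t n : ℝ) / β ^ (n + 1)) ^ k) atTop atTop :=
    tendsto_pow_atTop_atTop_of_one_lt hx
  have hlim2 : Tendsto (fun j : ℕ => 2 ^ j) atTop (atTop : Filter ℕ) :=
    tendsto_atTop_mono (fun j => (Nat.lt_two_pow_self).le) tendsto_id
  obtain ⟨j, hj⟩ := ((hlim.comp hlim2).eventually_gt_atTop (C / β)).exists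
  simp only [Function.comp] at hj
  have h0 : 1 ≤ 2 ^ j := Nat.one_le_two_pow
  have h1 : n + 1 ≤ 2 ^ j * (n + 1) := Nat.le_mul_of_pos_left _ h0
  have h3 := pow_le hn j
  have h4 := hC (2 ^ j * (n + 1) - 1)
  rw [norm_u (by omega)] at h4
  have h5 : (t n : ℝ) ^ (2 ^ j) ≤ C * β ^ (2 ^ j * (n + 1) - 1) := h3.trans h4
  have h6 : β ^ (2 ^ j * (n + 1)) = β ^ (2 ^ j * (n + 1) - 1) * β := by
    rw [← pow_succ]; congr 1; omega
  rw [div_pow, ← pow_mul, mul_comm (n + 1), h6, div_lt_div_iff₀ hβ (by positivity)] at hj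
  have h7 : (t n : ℝ) ^ (2 ^ j) * β ≤ C * (β ^ (2 ^ j * (n + 1) - 1) * β) := by
    have := mul_le_mul_of_nonneg_right h5 hβ.le
    linarith
  linarith

lemma recurrence_of_rational (h : IsRationalSeries T) :
    ∃ q : ℂ[X], q ≠ 0 ∧ EvZero ((aeval E q) u) := by
  obtain ⟨P, Q, hQ, hPQ⟩ := h
  set D := Q.natDegree with hD
  refine ⟨∑ i ∈ Finset.range (D + 1), C ((Q.coeff i : ℚ) : ℂ) * X ^ (D - i), ?_, ?_⟩
  · intro h0
    have h1 := congrArg (fun p => p.coeff 0) h0
    simp only [finsetSum_coeff, coeff_C_mul, coeff_X_pow, coeff_zero] at h1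
    rw [Finset.sum_eq_single D] at h1
    · simp only [tsub_self, if_true, mul_one] at h1
      have h2 : Q.coeff D = 0 := by exact_mod_cast h1
      rw [hD, coeff_natDegree, leadingCoeff_eq_zero] at h2
      exact hQ h2
    · intro b hb hbD
      rw [Finset.mem_range] at hb
      rw [if_neg (by omega), mul_zero]
    · intro hcon
      exact absurd (Finset.mem_range.mpr (Nat.lt_succ_self D)) hcon
  · refine ⟨P.natDegree + 1, ?_⟩
    intro n hn
    have h1 := congrArg (fun F => PowerSeries.coeff (n + D) F) hPQ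
    simp only [PowerSeries.coeff_mul, Polynomial.coeff_coe] at h1
    rw [Polynomial.coeff_eq_zero_of_natDegree_lt (p := P) (by omega)] at h1
    rw [Finset.Nat.sum_antidiagonal_eq_sum_range_succ
      (fun i j => Q.coeff i * PowerSeries.coeff j T)] at h1
    rw [← Finset.sum_subset (s₁ := Finset.range (D + 1))] at h1
    rotate_left
    · intro i hi
      rw [Finset.mem_range] at hi ⊢
      omega
    · intro i _ hi2
      rw [Finset.mem_range] at hi2
      rw [Polynomial.coeff_eq_zero_of_natDegree_lt (by omega), zero_mul]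
    rw [map_sum, LinearMap.sum_apply, Finset.sum_apply]
    have h2 : ∀ i ∈ Finset.range (D + 1),
        ((aeval E) (C ((Q.coeff i : ℚ) : ℂ) * X ^ (D - i))) u n =
        (((Q.coeff i * PowerSeries.coeff (n + D - i) T : ℚ)) : ℂ) := by
      intro i hi
      rw [Finset.mem_range] at hi
      rw [map_mul, aeval_C, map_pow, aeval_X, Module.End.mul_apply]
      have h3 : ((algebraMap ℂ (Module.End ℂ (ℕ → ℂ))) ((Q.coeff i : ℚ) : ℂ))
        ((E ^ (D - i)) u) n = ((Q.coeff i : ℚ) : ℂ) * (E ^ (D - i)) u n := rfl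
      rw [h3, E_pow_apply]
      have h4 : n + (D - i) = n + D - i := by omega
      rw [h4, T, PowerSeries.coeff_mk, u]
      split_ifs
      · simp
      · push_cast; rfl
    rw [Finset.sum_congr rfl h2, ← Rat.cast_sum, h1]
    simp

/-- The generating function of fixed polyominoes is not a rational function. -/
theorem result : ¬ IsRationalSeries T := by
  intro hrat
  obtain ⟨β, hβ, hup, c, hc, r, N, hlow⟩ := growth u (recurrence_of_rational hrat) u_not_evZero
  -- the sharp upper bound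
  have hup' : ∀ n, 4 ≤ n → (t n : ℝ) ≤ β ^ (n + 1) := by
    intro n hn
    have hcont : Tendsto (fun x : ℝ => x ^ (n + 1)) (nhdsWithin β (Set.Ioi β))
        (nhds (β ^ (n + 1))) :=
      ((continuous_pow (n + 1)).tendsto β).mono_left nhdsWithin_le_nhds
    refine ge_of_tendsto hcont ?_
    filter_upwards [self_mem_nhdsWithin] with x hx
    exact t_le (lt_trans hβ hx) (hup x hx) hn
  set M : ℝ := max 1 β with hM
  have hM1 : 1 ≤ M := le_max_left _ _
  have hMβ : β ≤ M := le_max_right _ _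
  obtain ⟨n, hn⟩ := exists_nat_gt ((2 / c ^ 2 * M ^ (2 * r + 2)) ^ 2)
  set n' := max n (max N 4) with hn'
  have hn1 : n ≤ n' := le_max_left _ _
  have hn2 : N ≤ n' := le_trans (le_max_left _ _) (le_max_right _ _)
  have hn3 : 4 ≤ n' := le_trans (le_max_right _ _) (le_max_right _ _)
  obtain ⟨i, hi, hlow'⟩ := hlow n' hn2
  rw [norm_u (by omega)] at hlow'
  have h1 := sqrt_mul_sq_le (n' + i)
  have h2 := hup' (2 * (n' + i) + 1) (by omega)
  have hβn : 0 < β ^ n' := by positivity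
  have h3 : (c * β ^ n') ^ 2 ≤ (t (n' + i) : ℝ) ^ 2 :=
    pow_le_pow_left₀ (by positivity) hlow' 2
  have h4 : Real.sqrt ((n' + i : ℕ) : ℝ) * (c * β ^ n') ^ 2 ≤
      2 * β ^ (2 * (n' + i) + 1 + 1) := by
    have := mul_le_mul_of_nonneg_left h3 (Real.sqrt_nonneg ((n' + i : ℕ) : ℝ))
    linarith
  have h5 : β ^ (2 * (n' + i) + 1 + 1) = (β ^ n') ^ 2 * β ^ (2 * i + 2) := by
    rw [← pow_mul, ← pow_add]; congr 1; ring
  rw [h5, mul_pow] at h4
  have h6 : Real.sqrt ((n' + i : ℕ) : ℝ) * c ^ 2 ≤ 2 * β ^ (2 * i + 2) := by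
    have hsq : 0 < (β ^ n') ^ 2 := by positivity
    have h7 : (Real.sqrt ((n' + i : ℕ) : ℝ) * c ^ 2) * (β ^ n') ^ 2 ≤
        (2 * β ^ (2 * i + 2)) * (β ^ n') ^ 2 := by linarith
    exact le_of_mul_le_mul_right h7 hsq
  have h7 : β ^ (2 * i + 2) ≤ M ^ (2 * r + 2) := by
    calc β ^ (2 * i + 2) ≤ M ^ (2 * i + 2) := pow_le_pow_left₀ hβ.le hMβ _
      _ ≤ M ^ (2 * r + 2) := pow_le_pow_right₀ hM1 (by omega)
  have h8 : Real.sqrt ((n' + i : ℕ) : ℝ) ≤ 2 / c ^ 2 * M ^ (2 * r + 2) := by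
    rw [div_mul_eq_mul_div, le_div_iff₀ (by positivity)]
    linarith
  have h9 : ((n' + i : ℕ) : ℝ) ≤ (2 / c ^ 2 * M ^ (2 * r + 2)) ^ 2 := by
    rw [← Real.sqrt_le_left (by positivity)]
    exact h8
  have h10 : (n : ℝ) ≤ ((n' + i : ℕ) : ℝ) := by exact_mod_cast (by omega : n ≤ n' + i)
  linarith

end Pool.Agent.Results.MP_66fa61_co.NotRational
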